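import Pool.Agent.J6H52.Osc.Lower

/-!
# Oscillating growth of finitely presented semigroups: the answer to Q1 is negative

Trofimov's theorem (every pair `f₁, f₂` is oscillated through by a finitely generated semigroup)
fails for finitely presented semigroups.  There is one function `f₂` which works for all
subexponential `f₁`, e.g. for `f₁ = n ^ 3`; and this is optimal in `f₁`: if `f₁` is not
subexponential, then for every `f₂` there is a finitely presented semigroup as required.
-/

universe u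

namespace Pool.Agent.Results.MP_dd6e79_al.OscillationAnswer

open Filter Pool.Agent.J6H52.Osc

/-- The hypotheses of Q1 on `f₁`: it is increasing, `n ^ 2 ⪯ f₁` and `f₁ ≁ n ^ 2`. -/
def LowerAdmissible (f₁ : ℕ → ℕ) : Prop :=
  StrictMono f₁ ∧ Preceq (fun n => n ^ 2) f₁ ∧ ¬ GrowthEquiv f₁ (fun n => n ^ 2)

/-- The hypotheses of Q1 on `f₂`: it is increasing, `f₂ ⪯ 2 ^ n` and `f₂ ≁ 2 ^ n`. -/
def UpperAdmissible (f₂ : ℕ → ℕ) : Prop :=
  StrictMono f₂ ∧ Preceq f₂ (fun n => 2 ^ n) ∧ ¬ GrowthEquiv f₂ (fun n => 2 ^ n)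

/-- The conclusion of Q1: there is a finitely presented semigroup `S` (with a finite generating
set `X`) such that `f_S(n) < f₁(n)` for infinitely many `n` and `f_S(n) > f₂(n)` for infinitely
many `n`. -/
def HasOscillatingFP (f₁ f₂ : ℕ → ℕ) : Prop :=
  ∃ (S : Type) (_ : Semigroup S) (X : Set S), FinitelyPresented S ∧ X.Finite ∧
    Subsemigroup.closure X = ⊤ ∧ (∃ᶠ n in atTop, growth X n < f₁ n) ∧
    (∃ᶠ n in atTop, f₂ n < growth X n)

/-- If `f₁` is not subexponential, then Q1 has a positive answer for `f₁` and every `f₂`. -/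
theorem positive {f₁ f₂ : ℕ → ℕ} (h₁ : ¬ Subexponential f₁) (h₂ : UpperAdmissible f₂) :
    HasOscillatingFP f₁ f₂ := by
  unfold Subexponential at h₁
  push Not at h₁
  obtain ⟨c, hc, hfreq⟩ := h₁
  obtain ⟨c', hc', hc'c⟩ := exists_between hc
  obtain ⟨k, ⟨A, hA⟩, d, hd, hlow⟩ := exists_small_exponential c' hc'
  refine ⟨Q k, inferInstance, genSet k, fp_Q k, genSet_finite k, genSet_closure k, ?_, ?_⟩
  · have hratio : 1 < c / c' := (one_lt_div (by linarith)).2 hc'c
    have hlim : Tendsto (fun n : ℕ => (c / c') ^ n) atTop atTop :=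
      tendsto_pow_atTop_atTop_of_one_lt hratio
    refine (hfreq.and_eventually (hlim.eventually_ge_atTop A)).mono ?_
    rintro n ⟨h1, h2⟩
    have h3 : c ^ n = c' ^ n * (c / c') ^ n := by
      rw [← mul_pow]
      congr 1
      have : c' ≠ 0 := by linarith
      field_simp
    have h4 : c' ^ n * A ≤ c' ^ n * (c / c') ^ n := mul_le_mul_of_nonneg_left h2 (by positivity)
    have h5 : (growth (genSet k) n : ℝ) < f₁ n := by
      have := hA n
      linarith
    exact_mod_cast h5
  · have hno : ¬ Preceq (fun n => 2 ^ n) f₂ := fun h => h₂.2.2 ⟨h₂.2.1, h⟩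
    unfold Preceq at hno
    push Not at hno
    rw [frequently_atTop]
    intro N
    have hlim : Tendsto (fun n : ℕ => d ^ n) atTop atTop := tendsto_pow_atTop_atTop_of_one_lt hd
    obtain ⟨C, hC1, hC2⟩ := ((hlim.eventually_ge_atTop 2).and
      (eventually_ge_atTop (max N 2))).exists
    obtain ⟨n, hn1, hn2⟩ := hno C (by omega)
    refine ⟨C * n, ?_, ?_⟩
    · have : N ≤ C := (le_max_left _ _).trans hC2
      nlinarith
    · have h1 : 2 * f₂ (C * n) < 2 ^ n := by
        have : 2 ≤ C := (le_max_right _ _).trans hC2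
        calc 2 * f₂ (C * n) ≤ C * f₂ (C * n) := Nat.mul_le_mul_right _ this
          _ < 2 ^ n := hn2
      have h2 : (2 : ℝ) ^ n ≤ d ^ (C * n) := by
        rw [pow_mul]
        exact pow_le_pow_left₀ (by norm_num) hC1 n
      have hC0 : 0 < C := by
        have : 2 ≤ C := (le_max_right _ _).trans hC2
        omega
      have h3 := hlow (C * n) (Nat.mul_pos hC0 hn1)
      have h4 : (2 : ℝ) ^ n < (growth (genSet k) (C * n) : ℝ) + 1 := lt_of_le_of_lt h2 h3
      have h5 : 2 ^ n < growth (genSet k) (C * n) + 1 := by exact_mod_cast h4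
      have h6 : 2 ≤ 2 ^ n := by
        calc 2 = 2 ^ 1 := by norm_num
          _ ≤ 2 ^ n := Nat.pow_le_pow_right (by norm_num) hn1
      omega

theorem cube_admissible : LowerAdmissible (fun n => n ^ 3) := by
  refine ⟨fun a b h => Nat.pow_lt_pow_left h (by norm_num), ⟨1, le_rfl, fun n _ => ?_⟩, ?_⟩
  · simp only [one_mul]
    rcases Nat.eq_zero_or_pos n with h | h
    · subst h; simp
    · exact Nat.pow_le_pow_right h (by norm_num)
  · rintro ⟨⟨C, hC, h⟩, _⟩
    have h1 := h (C ^ 3 + 1) (by omega)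
    have h2 : C * (C * (C ^ 3 + 1)) ^ 2 = C ^ 3 * (C ^ 3 + 1) ^ 2 := by ring
    simp only at h1
    rw [h2, pow_succ (C ^ 3 + 1) 2, mul_comm] at h1
    have h3 : 0 < (C ^ 3 + 1) ^ 2 := by positivity
    have := Nat.le_of_mul_le_mul_right h1 h3
    omega

theorem cube_subexponential : Subexponential (fun n => n ^ 3) := by
  intro c hc
  have h := tendsto_pow_const_div_const_pow_of_one_lt 3 hc
  have h2 : ∀ᶠ n : ℕ in atTop, (n : ℝ) ^ 3 / c ^ n < 1 :=
    h.eventually (gt_mem_nhds (by norm_num))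
  filter_upwards [h2] with n hn
  have hpos : 0 < c ^ n := by positivity
  rw [div_lt_iff₀ hpos, one_mul] at hn
  push_cast
  exact hn.le

/-- **Answer to Q1.**

(1) Q1 has a negative answer: it is not true that for all increasing `f₁, f₂` with `n ^ 2 ⪯ f₁`,
`f₂ ⪯ 2 ^ n`, `f₁ ≁ n ^ 2`, `f₂ ≁ 2 ^ n` there is a finitely presented semigroup `S` with
`f_S(n) < f₁(n)` infinitely often and `f_S(n) > f₂(n)` infinitely often.

(2) In the form of the negated statement, and with a single `f₂` for all subexponential `f₁` at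
once: there is an admissible `f₂` such that for every subexponential `f₁` (for instance
`f₁ = n ^ 3`), every finitely presented semigroup `S` and every finite generating set of `S`,
`f_S(n) ≥ f₁(n)` for all large `n`, or `f_S(n) ≤ f₂(n)` for all large `n`.

(3) Exactly the subexponential `f₁` fail: for an increasing `f₁` with `n ^ 2 ⪯ f₁` and
`f₁ ≁ n ^ 2`, the conclusion of Q1 holds for all admissible `f₂` if and only if `f₁` is not
subexponential. -/
theorem result :
    (¬ ∀ f₁ f₂ : ℕ → ℕ, LowerAdmissible f₁ → UpperAdmissible f₂ → HasOscillatingFP f₁ f₂) ∧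
    (∃ f₂ : ℕ → ℕ, UpperAdmissible f₂ ∧
      ∀ f₁ : ℕ → ℕ, Subexponential f₁ →
        ∀ (S : Type u) [Semigroup S], FinitelyPresented S →
          ∀ X : Set S, X.Finite → Subsemigroup.closure X = ⊤ →
            (∀ᶠ n in atTop, f₁ n ≤ growth X n) ∨ (∀ᶠ n in atTop, growth X n ≤ f₂ n)) ∧
    (∀ f₁ : ℕ → ℕ, LowerAdmissible f₁ →
      ((∀ f₂ : ℕ → ℕ, UpperAdmissible f₂ → HasOscillatingFP f₁ f₂) ↔ ¬ Subexponential f₁)) := by
  -- the universal function `f₂`
  have key : ∀ f₁ : ℕ → ℕ, Subexponential f₁ → ∃ f₂, UpperAdmissible f₂ ∧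
      ¬ HasOscillatingFP f₁ f₂ := by
    obtain ⟨F, hF1, hF2, _, hF4⟩ := fp_dichotomy.{0}
    intro f₁ hf₁
    refine ⟨F, ⟨hF1, preceq_two_pow hF1.monotone hF2, fun h => not_two_pow_preceq hF2 h.2⟩, ?_⟩
    rintro ⟨S, _, X, hS, hX, _, h1, h2⟩
    rcases hF4 S hS X hX with h | h
    · obtain ⟨n, hn1, hn2⟩ := (h1.and_eventually (h f₁ hf₁)).exists
      omega
    · obtain ⟨n, hn1, hn2⟩ := (h2.and_eventually h).exists
      omega
  refine ⟨?_, ?_, ?_⟩
  · intro h
    obtain ⟨f₂, h1, h2⟩ := key _ cube_subexponential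
    exact h2 (h _ f₂ cube_admissible h1)
  · obtain ⟨F, hF1, hF2, _, hF4⟩ := fp_dichotomy.{u}
    refine ⟨F, ⟨hF1, preceq_two_pow hF1.monotone hF2, fun h => not_two_pow_preceq hF2 h.2⟩, ?_⟩
    intro f₁ hf₁ S _ hS X hX _
    rcases hF4 S hS X hX with h | h
    · exact Or.inl (h f₁ hf₁)
    · exact Or.inr h
  · intro f₁ _
    constructor
    · intro h hs
      obtain ⟨f₂, h1, h2⟩ := key f₁ hs
      exact h2 (h f₂ h1)
    · intro hs f₂ h₂
      exact positive hs h₂

end Pool.Agent.Results.MP_dd6e79_al.OscillationAnswer
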